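import Pool.Agent.Helper58.PB.StM

/-!
# Project PB, module BXF: frozen coefficients on a box
-/

set_option autoImplicit false

namespace Pool.Agent.Helper3.PB

open Finset ArithmeticFunction
open Pool.Agent.Helper58.PB
open Pool.Agent.Helper48.BK (ex th Sx Apx rr win AdN Admissible Solv Cl thd)
open Pool.Agent.Helper23.GK (cR)
open Pool.Agent.Helper23.MV (PCh PS ZF ZS mwt OKb ta Sc mm)

private lemma ps_BXF {Q : ℝ} {c : PCh} (h : c ∈ PS Q) : (c.r : ℝ) ≤ Q := by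
  unfold PS at h
  split_ifs at h with hf
  · simpa using h
  · simp at h

/-- expansion of a sum of triple products -/
private lemma tri_BXF {ι α : Type*} (V : Finset α) (S₁ S₂ S₃ : Finset ι) (k₁ k₂ k₃ : ι → ℂ)
    (f₁ f₂ f₃ : ι → α → ℂ) :
    ∑ v ∈ V, (∑ s ∈ S₁, k₁ s * f₁ s v) * (∑ s ∈ S₂, k₂ s * f₂ s v) * (∑ s ∈ S₃, k₃ s * f₃ s v) =
      ∑ s₁ ∈ S₁, ∑ s₂ ∈ S₂, ∑ s₃ ∈ S₃, k₁ s₁ * k₂ s₂ * k₃ s₃ *
        ∑ v ∈ V, f₁ s₁ v * f₂ s₂ v * f₃ s₃ v := by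
  have h1 : ∀ v ∈ V, (∑ s ∈ S₁, k₁ s * f₁ s v) * (∑ s ∈ S₂, k₂ s * f₂ s v) *
      (∑ s ∈ S₃, k₃ s * f₃ s v) = ∑ s₁ ∈ S₁, ∑ s₂ ∈ S₂, ∑ s₃ ∈ S₃,
        k₁ s₁ * k₂ s₂ * k₃ s₃ * (f₁ s₁ v * f₂ s₂ v * f₃ s₃ v) := by
    intro v _
    rw [sum_mul_sum, sum_mul]
    refine sum_congr rfl fun s₁ _ => ?_
    rw [sum_mul]
    refine sum_congr rfl fun s₂ _ => ?_
    rw [mul_sum]
    refine sum_congr rfl fun s₃ _ => ?_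
    ring
  rw [sum_congr rfl h1, sum_comm]
  refine sum_congr rfl fun s₁ _ => ?_
  rw [sum_comm]
  refine sum_congr rfl fun s₂ _ => ?_
  rw [sum_comm]
  refine sum_congr rfl fun s₃ _ => ?_
  rw [mul_sum]

/-- expansion of a sum over a box -/
private lemma triBx_BXF {ι : Type*} (a b c : ℕ) (d : ℤ) (V : Finset (ℕ × ℕ)) (S₁ S₂ S₃ : Finset ι)
    (k₁ k₂ k₃ : ι → ℂ) (f₁ f₂ f₃ : ι → ℕ → ℂ) :
    ∑ v ∈ V, (∑ s ∈ S₁, k₁ s * f₁ s v.1) * (∑ s ∈ S₂, k₂ s * f₂ s v.2) *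
        (∑ s ∈ S₃, k₃ s * f₃ s (thd a b c d v).toNat) =
      ∑ s₁ ∈ S₁, ∑ s₂ ∈ S₂, ∑ s₃ ∈ S₃, k₁ s₁ * k₂ s₂ * k₃ s₃ *
        ∑ v ∈ V, f₁ s₁ v.1 * f₂ s₂ v.2 * f₃ s₃ (thd a b c d v).toNat :=
  tri_BXF V S₁ S₂ S₃ k₁ k₂ k₃ (fun s v => f₁ s v.1) (fun s v => f₂ s v.2)
    (fun s v => f₃ s (thd a b c d v).toNat)

/-- expansion of an average -/
private lemma triEn_BXF {ι : Type*} (a b c : ℕ) (d : ℤ) (M : ℕ) (S₁ S₂ S₃ : Finset ι)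
    (k₁ k₂ k₃ : ι → ℂ) (f₁ f₂ f₃ : ι → ℕ → ℂ) :
    En a b c d M (fun u v w => (∑ s ∈ S₁, k₁ s * f₁ s u) * (∑ s ∈ S₂, k₂ s * f₂ s v) *
        (∑ s ∈ S₃, k₃ s * f₃ s w)) =
      ∑ s₁ ∈ S₁, ∑ s₂ ∈ S₂, ∑ s₃ ∈ S₃, k₁ s₁ * k₂ s₂ * k₃ s₃ *
        En a b c d M (fun u v w => f₁ s₁ u * f₂ s₂ v * f₃ s₃ w) := by
  unfold En
  rw [tri_BXF (Cl a b c d M) S₁ S₂ S₃ k₁ k₂ k₃ (fun s v => f₁ s v.1) (fun s v => f₂ s v.2.1)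
    (fun s v => f₃ s v.2.2), mul_sum]
  refine sum_congr rfl fun s₁ _ => ?_
  rw [mul_sum]
  refine sum_congr rfl fun s₂ _ => ?_
  rw [mul_sum]
  refine sum_congr rfl fun s₃ _ => ?_
  ring

/-- the function of `n` in the term `s` of `wt` -/
private noncomputable def gg_BXF (e : PCh) (s n : ℕ) : ℂ :=
  (starRingEnd ℂ) (e.ev n) * ((cR s n : ℤ) : ℂ)

/-- the coefficient of the term `s` of `wt` -/
private noncomputable def kf_BXF (e : PCh) (s : ℕ) : ℂ :=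
  (e.r : ℂ) / (Nat.totient e.r : ℂ) * ((moebius s : ℂ) / (Nat.totient s : ℂ))

private lemma wt_BXF (Q : ℕ) (e : PCh) (n : ℕ) :
    wt Q e n = ∑ s ∈ (Icc 1 Q).filter (fun s => Nat.Coprime s e.r), kf_BXF e s * gg_BXF e s n := by
  unfold wt sw kf_BXF gg_BXF
  rw [Complex.ofReal_sum, mul_sum]
  refine sum_congr rfl fun s _ => ?_
  push_cast
  ring

private lemma ev_le_BXF (e : PCh) (n : ℕ) : ‖(starRingEnd ℂ) (e.ev n)‖ ≤ 1 := by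
  rw [RCLike.norm_conj]
  exact DirichletCharacter.norm_le_one e.χ _

private lemma gg_le_BXF (hCrm : StCrm) (e : PCh) (s n : ℕ) (hs : 1 ≤ s) (hsf : Squarefree s) :
    ‖gg_BXF e s n‖ ≤ Nat.totient s := by
  have h := hCrm.2.2 s n hs hsf
  have h2 : (Nat.totient (Nat.gcd s (n : ℤ).natAbs) : ℤ) ≤ Nat.totient s := by
    exact_mod_cast Nat.le_of_dvd (Nat.totient_pos.2 hs)
      (Nat.totient_dvd_of_dvd (Nat.gcd_dvd_left _ _))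
  have h3 : ‖((cR s n : ℤ) : ℂ)‖ ≤ Nat.totient s := by
    rw [Complex.norm_intCast, ← Int.cast_abs]
    rw [h]
    exact_mod_cast h2
  unfold gg_BXF
  rw [norm_mul]
  calc ‖(starRingEnd ℂ) (e.ev n)‖ * ‖((cR s n : ℤ) : ℂ)‖ ≤ 1 * (Nat.totient s : ℝ) :=
        mul_le_mul (ev_le_BXF e n) h3 (norm_nonneg _) zero_le_one
    _ = _ := one_mul _

private lemma gg_per_BXF (hCrm : StCrm) (e : PCh) (s M n n' : ℕ) (hs : 1 ≤ s) (h1 : e.r ∣ M)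
    (h2 : s ∣ M) (h : n ≡ n' [MOD M]) : gg_BXF e s n = gg_BXF e s n' := by
  unfold gg_BXF PCh.ev
  have h3 : ((n : ZMod e.r)) = (n' : ZMod e.r) :=
    (ZMod.natCast_eq_natCast_iff _ _ _).2 (h.of_dvd h1)
  have h4 : cR s n = cR s n' := by
    refine hCrm.2.1 s n n' hs ?_
    exact (Nat.modEq_iff_dvd.1 (h.of_dvd h2).symm)
  rw [h3, h4]

private lemma kf_le_BXF (e : PCh) (s : ℕ) (hs : 1 ≤ s) :
    ‖kf_BXF e s‖ * (Nat.totient s : ℝ) ≤ e.r := by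
  have hs' : (0 : ℝ) < Nat.totient s := by exact_mod_cast Nat.totient_pos.2 hs
  have hr' : (1 : ℝ) ≤ Nat.totient e.r := by
    exact_mod_cast Nat.totient_pos.2 (Nat.pos_of_ne_zero e.hr)
  have hm : ‖((moebius s : ℤ) : ℂ)‖ ≤ 1 := by
    rw [Complex.norm_intCast, ← Int.cast_abs]
    exact_mod_cast ArithmeticFunction.abs_moebius_le_one
  unfold kf_BXF
  rw [norm_mul, norm_div, norm_div, Complex.norm_natCast, Complex.norm_natCast,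
    Complex.norm_natCast]
  calc (e.r : ℝ) / (Nat.totient e.r : ℝ) * (‖((moebius s : ℤ) : ℂ)‖ / (Nat.totient s : ℝ)) *
        (Nat.totient s : ℝ) = (e.r : ℝ) / (Nat.totient e.r : ℝ) * ‖((moebius s : ℤ) : ℂ)‖ := by
        field_simp
    _ ≤ (e.r : ℝ) * 1 := by
        refine mul_le_mul (div_le_self (Nat.cast_nonneg _) hr') hm (norm_nonneg _)
          (Nat.cast_nonneg _)
    _ = _ := mul_one _

/-- one term -/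
private lemma term_BXF (hBxp : StBxp) (hLft : StLft) (hCrm : StCrm) (P : ℝ)
    (a b c Q i I j J : ℕ) (d : ℤ) (hP : 1 ≤ P) (hPQ : P ≤ Q) (ha : 1 ≤ a) (hb : 1 ≤ b) (hc : 1 ≤ c)
    (hg : Nat.gcd a (Nat.gcd b c) = 1)
    (hd : ∀ n m : ℕ, i < n → n ≤ i + I → j < m → m ≤ j + J → d < a * n + b * m)
    (e₁ e₂ e₃ : PCh) (he₁ : e₁ ∈ PS P) (he₂ : e₂ ∈ PS P) (he₃ : e₃ ∈ PS P) (s₁ s₂ s₃ : ℕ)
    (hs₁ : 1 ≤ s₁) (hs₂ : 1 ≤ s₂) (hs₃ : 1 ≤ s₃) (hQ₁ : s₁ ≤ Q) (hQ₂ : s₂ ≤ Q) (hQ₃ : s₃ ≤ Q)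
    (hf₁ : Squarefree s₁) (hf₂ : Squarefree s₂) (hf₃ : Squarefree s₃) :
    ‖∑ v ∈ Bx a b c d i I j J, gg_BXF e₁ s₁ v.1 * gg_BXF e₂ s₂ v.2 *
        gg_BXF e₃ s₃ (thd a b c d v).toNat -
      ((I : ℂ) * J / c) * En a b c d (Nat.factorial Q) (fun u v w => gg_BXF e₁ s₁ u *
        gg_BXF e₂ s₂ v * gg_BXF e₃ s₃ w)‖ ≤
      6 * ((Nat.totient s₁ : ℝ) * Nat.totient s₂ * Nat.totient s₃) * (P ^ 3 * (Q : ℝ) ^ 3) ^ 2 *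
        (I + J + 1) := by
  have hr₁ := ps_BXF he₁
  have hr₂ := ps_BXF he₂
  have hr₃ := ps_BXF he₃
  have hr₁' : 1 ≤ e₁.r := Nat.one_le_iff_ne_zero.2 e₁.hr
  have hr₂' : 1 ≤ e₂.r := Nat.one_le_iff_ne_zero.2 e₂.hr
  have hr₃' : 1 ≤ e₃.r := Nat.one_le_iff_ne_zero.2 e₃.hr
  have hfac : 1 ≤ Nat.factorial Q := Nat.factorial_pos Q
  set M : ℕ := (e₁.r * s₁) * (e₂.r * s₂) * (e₃.r * s₃) with hM
  have hM1 : 1 ≤ M := by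
    rw [hM]
    exact Nat.one_le_iff_ne_zero.2 (by positivity)
  have hMle : (M : ℝ) ≤ P ^ 3 * (Q : ℝ) ^ 3 := by
    have hQ₁' : (s₁ : ℝ) ≤ Q := by exact_mod_cast hQ₁
    have hQ₂' : (s₂ : ℝ) ≤ Q := by exact_mod_cast hQ₂
    have hQ₃' : (s₃ : ℝ) ≤ Q := by exact_mod_cast hQ₃
    have e1 : (e₁.r : ℝ) * s₁ ≤ P * Q := mul_le_mul hr₁ hQ₁' (by positivity) (by positivity)
    have e2 : (e₂.r : ℝ) * s₂ ≤ P * Q := mul_le_mul hr₂ hQ₂' (by positivity) (by positivity)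
    have e3 : (e₃.r : ℝ) * s₃ ≤ P * Q := mul_le_mul hr₃ hQ₃' (by positivity) (by positivity)
    rw [hM]
    push_cast
    calc ((e₁.r : ℝ) * s₁) * ((e₂.r : ℝ) * s₂) * ((e₃.r : ℝ) * s₃) ≤ (P * Q) * (P * Q) * (P * Q) := by
          gcongr
      _ = _ := by ring
  have hperM : Per3 M (fun u v w => gg_BXF e₁ s₁ u * gg_BXF e₂ s₂ v * gg_BXF e₃ s₃ w) := by
    intro u v w u' v' w' hu hv hw
    show gg_BXF e₁ s₁ u * gg_BXF e₂ s₂ v * gg_BXF e₃ s₃ w =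
      gg_BXF e₁ s₁ u' * gg_BXF e₂ s₂ v' * gg_BXF e₃ s₃ w'
    have d1 : e₁.r * s₁ ∣ M := ⟨(e₂.r * s₂) * (e₃.r * s₃), by rw [hM]; ring⟩
    have d2 : e₂.r * s₂ ∣ M := ⟨(e₁.r * s₁) * (e₃.r * s₃), by rw [hM]; ring⟩
    have d3 : e₃.r * s₃ ∣ M := ⟨(e₁.r * s₁) * (e₂.r * s₂), by rw [hM]; ring⟩
    rw [gg_per_BXF hCrm e₁ s₁ M u u' hs₁ ((Dvd.intro _ rfl).trans d1) ((Dvd.intro_left _ rfl).trans d1) hu,
      gg_per_BXF hCrm e₂ s₂ M v v' hs₂ ((Dvd.intro _ rfl).trans d2) ((Dvd.intro_left _ rfl).trans d2) hv,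
      gg_per_BXF hCrm e₃ s₃ M w w' hs₃ ((Dvd.intro _ rfl).trans d3) ((Dvd.intro_left _ rfl).trans d3) hw]
  have hrQ : ∀ e : PCh, (e.r : ℝ) ≤ P → e.r ∣ Nat.factorial Q := by
    intro e he
    refine Nat.dvd_factorial (Nat.pos_of_ne_zero e.hr) ?_
    exact_mod_cast he.trans hPQ
  have hperQ : Per3 (Nat.factorial Q) (fun u v w => gg_BXF e₁ s₁ u * gg_BXF e₂ s₂ v * gg_BXF e₃ s₃ w) := by
    intro u v w u' v' w' hu hv hw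
    show gg_BXF e₁ s₁ u * gg_BXF e₂ s₂ v * gg_BXF e₃ s₃ w =
      gg_BXF e₁ s₁ u' * gg_BXF e₂ s₂ v' * gg_BXF e₃ s₃ w'
    rw [gg_per_BXF hCrm e₁ s₁ _ u u' hs₁ (hrQ e₁ hr₁) (Nat.dvd_factorial hs₁ hQ₁) hu,
      gg_per_BXF hCrm e₂ s₂ _ v v' hs₂ (hrQ e₂ hr₂) (Nat.dvd_factorial hs₂ hQ₂) hv,
      gg_per_BXF hCrm e₃ s₃ _ w w' hs₃ (hrQ e₃ hr₃) (Nat.dvd_factorial hs₃ hQ₃) hw]
  have hEn : En a b c d M (fun u v w => gg_BXF e₁ s₁ u * gg_BXF e₂ s₂ v * gg_BXF e₃ s₃ w) =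
      En a b c d (Nat.factorial Q) (fun u v w => gg_BXF e₁ s₁ u * gg_BXF e₂ s₂ v *
        gg_BXF e₃ s₃ w) := by
    rw [← (hLft a b c M (Nat.factorial Q) d hM1 hfac hg).2 _ hperM,
      ← (hLft a b c (Nat.factorial Q) M d hfac hM1 hg).2 _ hperQ, mul_comm]
  have hB : ∀ u v w, ‖gg_BXF e₁ s₁ u * gg_BXF e₂ s₂ v * gg_BXF e₃ s₃ w‖ ≤
      (Nat.totient s₁ : ℝ) * Nat.totient s₂ * Nat.totient s₃ := by
    intro u v w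
    rw [norm_mul, norm_mul]
    have := gg_le_BXF hCrm e₁ s₁ u hs₁ hf₁
    have := gg_le_BXF hCrm e₂ s₂ v hs₂ hf₂
    have := gg_le_BXF hCrm e₃ s₃ w hs₃ hf₃
    gcongr
  have h := hBxp a b c M i I j J d (fun u v w => gg_BXF e₁ s₁ u * gg_BXF e₂ s₂ v * gg_BXF e₃ s₃ w)
    ((Nat.totient s₁ : ℝ) * Nat.totient s₂ * Nat.totient s₃) ha hb hc hM1 hg (by positivity) hB
    hperM hd
  rw [hEn] at h
  refine h.trans ?_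
  gcongr

/-- the three weights -/
private lemma wts_BXF (hBxp : StBxp) (hLft : StLft) (hCrm : StCrm) (P : ℝ)
    (a b c Q i I j J : ℕ) (d : ℤ) (hP : 1 ≤ P) (hPQ : P ≤ Q) (ha : 1 ≤ a) (hb : 1 ≤ b) (hc : 1 ≤ c)
    (hg : Nat.gcd a (Nat.gcd b c) = 1)
    (hd : ∀ n m : ℕ, i < n → n ≤ i + I → j < m → m ≤ j + J → d < a * n + b * m)
    (e₁ e₂ e₃ : PCh) (he₁ : e₁ ∈ PS P) (he₂ : e₂ ∈ PS P) (he₃ : e₃ ∈ PS P) :
    ‖∑ v ∈ Bx a b c d i I j J, wt Q e₁ v.1 * wt Q e₂ v.2 * wt Q e₃ (thd a b c d v).toNat -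
      ((I : ℂ) * J / c) * En a b c d (Nat.factorial Q) (fun u v w => wt Q e₁ u *
        wt Q e₂ v * wt Q e₃ w)‖ ≤ 6 * P ^ 9 * (Q : ℝ) ^ 9 * (I + J + 1) := by
  have hr₁ := ps_BXF he₁
  have hr₂ := ps_BXF he₂
  have hr₃ := ps_BXF he₃
  have hA : ∑ v ∈ Bx a b c d i I j J, wt Q e₁ v.1 * wt Q e₂ v.2 * wt Q e₃ (thd a b c d v).toNat =
      ∑ s₁ ∈ (Icc 1 Q).filter (fun s => Nat.Coprime s e₁.r),
      ∑ s₂ ∈ (Icc 1 Q).filter (fun s => Nat.Coprime s e₂.r),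
      ∑ s₃ ∈ (Icc 1 Q).filter (fun s => Nat.Coprime s e₃.r),
        kf_BXF e₁ s₁ * kf_BXF e₂ s₂ * kf_BXF e₃ s₃ * ∑ v ∈ Bx a b c d i I j J,
          gg_BXF e₁ s₁ v.1 * gg_BXF e₂ s₂ v.2 * gg_BXF e₃ s₃ (thd a b c d v).toNat := by
    rw [← triBx_BXF a b c d (Bx a b c d i I j J) _ _ _ (kf_BXF e₁) (kf_BXF e₂) (kf_BXF e₃)
      (gg_BXF e₁) (gg_BXF e₂) (gg_BXF e₃)]
    refine sum_congr rfl fun v _ => ?_
    rw [wt_BXF, wt_BXF, wt_BXF]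
  have hE : En a b c d (Nat.factorial Q) (fun u v w => wt Q e₁ u * wt Q e₂ v * wt Q e₃ w) =
      ∑ s₁ ∈ (Icc 1 Q).filter (fun s => Nat.Coprime s e₁.r),
      ∑ s₂ ∈ (Icc 1 Q).filter (fun s => Nat.Coprime s e₂.r),
      ∑ s₃ ∈ (Icc 1 Q).filter (fun s => Nat.Coprime s e₃.r),
        kf_BXF e₁ s₁ * kf_BXF e₂ s₂ * kf_BXF e₃ s₃ * En a b c d (Nat.factorial Q)
          (fun u v w => gg_BXF e₁ s₁ u * gg_BXF e₂ s₂ v * gg_BXF e₃ s₃ w) := by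
    rw [← triEn_BXF a b c d (Nat.factorial Q) _ _ _ (kf_BXF e₁) (kf_BXF e₂) (kf_BXF e₃)
      (gg_BXF e₁) (gg_BXF e₂) (gg_BXF e₃)]
    congr 1
    funext u v w
    rw [wt_BXF, wt_BXF, wt_BXF]
  rw [hA, hE, mul_sum, ← sum_sub_distrib]
  have hcard : ∀ e : PCh, (((Icc 1 Q).filter (fun s => Nat.Coprime s e.r)).card : ℝ) ≤ Q := by
    intro e
    have := card_filter_le (Icc 1 Q) (fun s => Nat.Coprime s e.r)
    rw [Nat.card_Icc, Nat.add_sub_cancel] at this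
    exact_mod_cast this
  have hterm : ∀ s₁ ∈ (Icc 1 Q).filter (fun s => Nat.Coprime s e₁.r),
      ∀ s₂ ∈ (Icc 1 Q).filter (fun s => Nat.Coprime s e₂.r),
      ∀ s₃ ∈ (Icc 1 Q).filter (fun s => Nat.Coprime s e₃.r),
      ‖kf_BXF e₁ s₁ * kf_BXF e₂ s₂ * kf_BXF e₃ s₃ * ∑ v ∈ Bx a b c d i I j J,
          gg_BXF e₁ s₁ v.1 * gg_BXF e₂ s₂ v.2 * gg_BXF e₃ s₃ (thd a b c d v).toNat -
        ((I : ℂ) * J / c) * (kf_BXF e₁ s₁ * kf_BXF e₂ s₂ * kf_BXF e₃ s₃ *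
          En a b c d (Nat.factorial Q)
          (fun u v w => gg_BXF e₁ s₁ u * gg_BXF e₂ s₂ v * gg_BXF e₃ s₃ w))‖ ≤
        6 * P ^ 9 * (Q : ℝ) ^ 6 * (I + J + 1) := by
    intro s₁ h₁ s₂ h₂ s₃ h₃
    rw [mem_filter, mem_Icc] at h₁ h₂ h₃
    have hrw : kf_BXF e₁ s₁ * kf_BXF e₂ s₂ * kf_BXF e₃ s₃ * ∑ v ∈ Bx a b c d i I j J,
          gg_BXF e₁ s₁ v.1 * gg_BXF e₂ s₂ v.2 * gg_BXF e₃ s₃ (thd a b c d v).toNat -
        ((I : ℂ) * J / c) * (kf_BXF e₁ s₁ * kf_BXF e₂ s₂ * kf_BXF e₃ s₃ *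
          En a b c d (Nat.factorial Q)
          (fun u v w => gg_BXF e₁ s₁ u * gg_BXF e₂ s₂ v * gg_BXF e₃ s₃ w)) =
        kf_BXF e₁ s₁ * kf_BXF e₂ s₂ * kf_BXF e₃ s₃ * (∑ v ∈ Bx a b c d i I j J,
          gg_BXF e₁ s₁ v.1 * gg_BXF e₂ s₂ v.2 * gg_BXF e₃ s₃ (thd a b c d v).toNat -
        ((I : ℂ) * J / c) * En a b c d (Nat.factorial Q)
          (fun u v w => gg_BXF e₁ s₁ u * gg_BXF e₂ s₂ v * gg_BXF e₃ s₃ w)) := by ring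
    rw [hrw, norm_mul, norm_mul, norm_mul]
    have hz : ∀ (e : PCh) (s : ℕ), ¬ Squarefree s → ‖kf_BXF e s‖ = 0 := by
      intro e s hs
      unfold kf_BXF
      rw [ArithmeticFunction.moebius_eq_zero_of_not_squarefree hs]
      simp
    have hpos : (0 : ℝ) ≤ 6 * P ^ 9 * (Q : ℝ) ^ 6 * (I + J + 1) := by positivity
    by_cases hf₁ : Squarefree s₁
    swap
    · rw [hz e₁ s₁ hf₁]; simpa using hpos
    by_cases hf₂ : Squarefree s₂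
    swap
    · rw [hz e₂ s₂ hf₂]; simpa using hpos
    by_cases hf₃ : Squarefree s₃
    swap
    · rw [hz e₃ s₃ hf₃]; simpa using hpos
    have ht := term_BXF hBxp hLft hCrm P a b c Q i I j J d hP hPQ ha hb hc hg hd e₁ e₂ e₃ he₁ he₂ he₃
      s₁ s₂ s₃ h₁.1.1 h₂.1.1 h₃.1.1 h₁.1.2 h₂.1.2 h₃.1.2 hf₁ hf₂ hf₃
    have k1 : ‖kf_BXF e₁ s₁‖ * (Nat.totient s₁ : ℝ) ≤ P := (kf_le_BXF e₁ s₁ h₁.1.1).trans hr₁
    have k2 : ‖kf_BXF e₂ s₂‖ * (Nat.totient s₂ : ℝ) ≤ P := (kf_le_BXF e₂ s₂ h₂.1.1).trans hr₂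
    have k3 : ‖kf_BXF e₃ s₃‖ * (Nat.totient s₃ : ℝ) ≤ P := (kf_le_BXF e₃ s₃ h₃.1.1).trans hr₃
    calc ‖kf_BXF e₁ s₁‖ * ‖kf_BXF e₂ s₂‖ * ‖kf_BXF e₃ s₃‖ * _ ≤
          ‖kf_BXF e₁ s₁‖ * ‖kf_BXF e₂ s₂‖ * ‖kf_BXF e₃ s₃‖ *
          (6 * ((Nat.totient s₁ : ℝ) * Nat.totient s₂ * Nat.totient s₃) *
            (P ^ 3 * (Q : ℝ) ^ 3) ^ 2 * (I + J + 1)) :=
          mul_le_mul_of_nonneg_left ht (by positivity)
      _ = ((‖kf_BXF e₁ s₁‖ * (Nat.totient s₁ : ℝ)) * (‖kf_BXF e₂ s₂‖ * (Nat.totient s₂ : ℝ)) *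
          (‖kf_BXF e₃ s₃‖ * (Nat.totient s₃ : ℝ))) * (6 * (P ^ 3 * (Q : ℝ) ^ 3) ^ 2 *
            (I + J + 1)) := by ring
      _ ≤ (P * P * P) * (6 * (P ^ 3 * (Q : ℝ) ^ 3) ^ 2 * (I + J + 1)) := by gcongr
      _ = _ := by ring
  calc _ ≤ ∑ s₁ ∈ (Icc 1 Q).filter (fun s => Nat.Coprime s e₁.r),
      ∑ s₂ ∈ (Icc 1 Q).filter (fun s => Nat.Coprime s e₂.r),
      ∑ s₃ ∈ (Icc 1 Q).filter (fun s => Nat.Coprime s e₃.r),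
        (6 * P ^ 9 * (Q : ℝ) ^ 6 * (I + J + 1) : ℝ) := by
        refine norm_sum_le_of_le _ fun s₁ h₁ => ?_
        rw [mul_sum, ← sum_sub_distrib]
        refine norm_sum_le_of_le _ fun s₂ h₂ => ?_
        rw [mul_sum, ← sum_sub_distrib]
        refine norm_sum_le_of_le _ fun s₃ h₃ => ?_
        exact hterm s₁ h₁ s₂ h₂ s₃ h₃
    _ = (((Icc 1 Q).filter (fun s => Nat.Coprime s e₁.r)).card : ℝ) *
        (((Icc 1 Q).filter (fun s => Nat.Coprime s e₂.r)).card : ℝ) *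
        (((Icc 1 Q).filter (fun s => Nat.Coprime s e₃.r)).card : ℝ) *
        (6 * P ^ 9 * (Q : ℝ) ^ 6 * (I + J + 1)) := by
        simp only [sum_const, nsmul_eq_mul]
        ring
    _ ≤ (Q : ℝ) * Q * Q * (6 * P ^ 9 * (Q : ℝ) ^ 6 * (I + J + 1)) := by
        have := hcard e₁
        have := hcard e₂
        have := hcard e₃
        gcongr
    _ = _ := by ring

/-- BXF (frozen coefficients on a box) -/
theorem hBxf : StBxp → StLft → StCrm → StTru → StPos → StBxf := by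
  intro hBxp hLft hCrm hTru hPos
  obtain ⟨C, hC1, hC⟩ := hTru
  refine ⟨27 * C, by linarith, ?_⟩
  intro P t a b c Q i I j J d A₁ A₂ A₃ hP hPQ ht ha hb hc hAd hS₁ hS₂ hS₃ hd hpos
  have hg : Nat.gcd a (Nat.gcd b c) = 1 := hAd.2.1
  set E1 : ℝ := 6 * P ^ 9 * (Q : ℝ) ^ 9 * (I + J + 1) with hE1
  set E2 : ℝ := C * P ^ 14 * (Q : ℝ) ^ (-(1 / 2) : ℝ) * ((a * b * c).divisors.card : ℝ) ^ 2 with hE2
  set k : ℝ := (I : ℝ) * J / c with hk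
  have hk0 : 0 ≤ k := by positivity
  have hE10 : 0 ≤ E1 := by positivity
  have hE20 : 0 ≤ E2 := by
    have : 0 ≤ C := by linarith
    positivity
  have hkc : ((I : ℂ) * J / c) = ((k : ℝ) : ℂ) := by rw [hk]; push_cast; ring
  set B : ℂ := ∑ v ∈ Bx a b c d i I j J, (∑ e ∈ PS P, wt Q e v.1 * A₁ e) *
    (∑ e ∈ PS P, wt Q e v.2 * A₂ e) * (∑ e ∈ PS P, wt Q e (thd a b c d v).toNat * A₃ e) with hB
  set W : ℂ := ∑ c₁ ∈ PS P, ∑ c₂ ∈ PS P, ∑ c₃ ∈ PS P, A₁ c₁ * A₂ c₂ * A₃ c₃ *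
    En a b c d (Nat.factorial Q) (fun u v w => wi Q c₁ u * wi Q c₂ v * wi Q c₃ w) with hW
  have hBe : B = ∑ c₁ ∈ PS P, ∑ c₂ ∈ PS P, ∑ c₃ ∈ PS P, A₁ c₁ * A₂ c₂ * A₃ c₃ *
      ∑ v ∈ Bx a b c d i I j J, wt Q c₁ v.1 * wt Q c₂ v.2 * wt Q c₃ (thd a b c d v).toNat := by
    rw [← triBx_BXF a b c d (Bx a b c d i I j J) (PS P) (PS P) (PS P) A₁ A₂ A₃ (wt Q) (wt Q) (wt Q),
      hB]
    refine sum_congr rfl fun v _ => ?_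
    rw [sum_congr rfl fun e _ => mul_comm (wt Q e v.1) (A₁ e),
      sum_congr rfl fun e _ => mul_comm (wt Q e v.2) (A₂ e),
      sum_congr rfl fun e _ => mul_comm (wt Q e (thd a b c d v).toNat) (A₃ e)]
  have hterm : ∀ c₁ ∈ PS P, ∀ c₂ ∈ PS P, ∀ c₃ ∈ PS P,
      ‖A₁ c₁ * A₂ c₂ * A₃ c₃ * ∑ v ∈ Bx a b c d i I j J, wt Q c₁ v.1 * wt Q c₂ v.2 *
        wt Q c₃ (thd a b c d v).toNat - ((k : ℝ) : ℂ) * (A₁ c₁ * A₂ c₂ * A₃ c₃ *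
        En a b c d (Nat.factorial Q) (fun u v w => wi Q c₁ u * wi Q c₂ v * wi Q c₃ w))‖ ≤
      ‖A₁ c₁‖ * ‖A₂ c₂‖ * ‖A₃ c₃‖ * (E1 + k * E2) := by
    intro c₁ h₁ c₂ h₂ c₃ h₃
    have x1 := wts_BXF hBxp hLft hCrm P a b c Q i I j J d hP hPQ ha hb hc hg hd c₁ c₂ c₃ h₁ h₂ h₃
    have x2 := hC P a b c Q d c₁ c₂ c₃ hP hPQ ha hb hc hAd h₁ h₂ h₃
    rw [hkc] at x1
    rw [← hE1] at x1
    rw [← hE2] at x2
    set S := ∑ v ∈ Bx a b c d i I j J, wt Q c₁ v.1 * wt Q c₂ v.2 * wt Q c₃ (thd a b c d v).toNat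
    set U := En a b c d (Nat.factorial Q) (fun u v w => wt Q c₁ u * wt Q c₂ v * wt Q c₃ w)
    set V := En a b c d (Nat.factorial Q) (fun u v w => wi Q c₁ u * wi Q c₂ v * wi Q c₃ w)
    have x3 : A₁ c₁ * A₂ c₂ * A₃ c₃ * S - ((k : ℝ) : ℂ) * (A₁ c₁ * A₂ c₂ * A₃ c₃ * V) =
        A₁ c₁ * A₂ c₂ * A₃ c₃ * ((S - ((k : ℝ) : ℂ) * U) + ((k : ℝ) : ℂ) * (U - V)) := by ring
    rw [x3, norm_mul, norm_mul, norm_mul]
    refine mul_le_mul_of_nonneg_left ?_ (by positivity)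
    refine (norm_add_le _ _).trans (add_le_add x1 ?_)
    rw [norm_mul, Complex.norm_real, Real.norm_of_nonneg hk0]
    exact mul_le_mul_of_nonneg_left x2 hk0
  have hdiff : ‖B - ((k : ℝ) : ℂ) * W‖ ≤ 27 * (E1 + k * E2) := by
    rw [hBe, hW, mul_sum, ← sum_sub_distrib]
    calc _ ≤ ∑ c₁ ∈ PS P, ∑ c₂ ∈ PS P, ∑ c₃ ∈ PS P,
          ‖A₁ c₁‖ * ‖A₂ c₂‖ * ‖A₃ c₃‖ * (E1 + k * E2) := by
          refine norm_sum_le_of_le _ fun s₁ h₁ => ?_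
          rw [mul_sum, ← sum_sub_distrib]
          refine norm_sum_le_of_le _ fun s₂ h₂ => ?_
          rw [mul_sum, ← sum_sub_distrib]
          refine norm_sum_le_of_le _ fun s₃ h₃ => ?_
          exact hterm s₁ h₁ s₂ h₂ s₃ h₃
      _ = (∑ e ∈ PS P, ‖A₁ e‖) * (∑ e ∈ PS P, ‖A₂ e‖) * (∑ e ∈ PS P, ‖A₃ e‖) *
          (E1 + k * E2) := by
          rw [sum_mul_sum, sum_mul, sum_mul]
          refine sum_congr rfl fun s₁ _ => ?_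
          rw [sum_mul, sum_mul]
          refine sum_congr rfl fun s₂ _ => ?_
          rw [mul_sum, sum_mul]
      _ ≤ 3 * 3 * 3 * (E1 + k * E2) := by
          have : 0 ≤ E1 + k * E2 := by positivity
          gcongr
      _ = _ := by ring
  have hWt : t ^ 3 ≤ W.re := hPos P t a b c Q d A₁ A₂ A₃ hPQ ht ha hb hc hAd hpos
  have hre : |(B - ((k : ℝ) : ℂ) * W).re| ≤ 27 * (E1 + k * E2) :=
    (Complex.abs_re_le_norm _).trans hdiff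
  rw [Complex.sub_re, Complex.re_ofReal_mul] at hre
  have h1 := (abs_le.1 hre).1
  have h2 : k * t ^ 3 ≤ k * W.re := mul_le_mul_of_nonneg_left hWt hk0
  have h3 : 27 * E1 ≤ 200 * P ^ 9 * (Q : ℝ) ^ 9 * (I + J + 1) := by
    rw [hE1]
    have : (0 : ℝ) ≤ P ^ 9 * (Q : ℝ) ^ 9 * (I + J + 1) := by positivity
    nlinarith
  have h4 : 27 * C * P ^ 14 * (Q : ℝ) ^ (-(1 / 2) : ℝ) * ((a * b * c).divisors.card : ℝ) ^ 2 =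
      27 * E2 := by rw [hE2]; ring
  rw [h4]
  nlinarith

end Pool.Agent.Helper3.PB
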